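import Pool.Agent.H964.QC.Stm

/-! # QC (helper696): one layer of noise after freezing the past -/

set_option autoImplicit false

open MeasureTheory ProbabilityTheory Filter Finset
open Pool.Agent.H964.QC

namespace Pool.Agent.H696.QC

section
variable {Ω : Type} [MeasurableSpace Ω] {P : Measure Ω}

lemma int_pow4 {f : Ω → ℝ} (hf : MemLp f 4 P) : Integrable (fun ω => f ω ^ 4) P := by
  have hf' : MemLp f ((4 : ℕ) : ENNReal) P := by exact_mod_cast hf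
  have h := MemLp.integrable_norm_pow hf' (by norm_num)
  refine h.congr (Eventually.of_forall fun ω => ?_)
  simp only
  rw [Real.norm_eq_abs]
  exact Even.pow_abs ⟨2, rfl⟩ _

lemma int_prod4 {f1 f2 f3 f4 : Ω → ℝ} (h1 : MemLp f1 4 P) (h2 : MemLp f2 4 P)
    (h3 : MemLp f3 4 P) (h4 : MemLp f4 4 P) :
    Integrable (fun ω => f1 ω * f2 ω * (f3 ω * f4 ω)) P := by
  refine Integrable.mono' (((int_pow4 h1).add (int_pow4 h2)).add
    ((int_pow4 h3).add (int_pow4 h4))) ?_ ?_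
  · exact (h1.1.mul h2.1).mul (h3.1.mul h4.1)
  · refine Eventually.of_forall fun ω => ?_
    simp only [Pi.add_apply]
    generalize f1 ω = a
    generalize f2 ω = b
    generalize f3 ω = c
    generalize f4 ω = d
    rw [Real.norm_eq_abs, abs_le]
    have k1 : (a * b) ^ 2 ≤ (a ^ 4 + b ^ 4) / 2 := by nlinarith [sq_nonneg (a ^ 2 - b ^ 2)]
    have k2 : (c * d) ^ 2 ≤ (c ^ 4 + d ^ 4) / 2 := by nlinarith [sq_nonneg (c ^ 2 - d ^ 2)]
    have k3 : 0 ≤ a ^ 4 := by positivity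
    have k4 : 0 ≤ b ^ 4 := by positivity
    have k5 : 0 ≤ c ^ 4 := by positivity
    have k6 : 0 ≤ d ^ 4 := by positivity
    constructor
    · nlinarith [sq_nonneg (a * b + c * d)]
    · nlinarith [sq_nonneg (a * b - c * d)]

lemma int_sq2 {f g : Ω → ℝ} (hf : MemLp f 4 P) (hg : MemLp g 4 P) :
    Integrable (fun ω => f ω ^ 2 * g ω ^ 2) P := by
  refine (int_prod4 hf hf hg hg).congr (Eventually.of_forall fun ω => ?_)
  simp only
  ring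

lemma memLp_abs {f : Ω → ℝ} (hf : MemLp f 4 P) : MemLp (fun ω => |f ω|) 4 P := hf.abs

lemma int9 {f1 f2 f3 f4 f5 f6 f7 f8 f9 : Ω → ℝ} (h1 : Integrable f1 P) (h2 : Integrable f2 P)
    (h3 : Integrable f3 P) (h4 : Integrable f4 P) (h5 : Integrable f5 P) (h6 : Integrable f6 P)
    (h7 : Integrable f7 P) (h8 : Integrable f8 P) (h9 : Integrable f9 P) :
    Integrable (fun ω => f1 ω + f2 ω + f3 ω + f4 ω + f5 ω + f6 ω + f7 ω + f8 ω + f9 ω) P ∧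
    ∫ ω, (f1 ω + f2 ω + f3 ω + f4 ω + f5 ω + f6 ω + f7 ω + f8 ω + f9 ω) ∂P =
      ∫ ω, f1 ω ∂P + ∫ ω, f2 ω ∂P + ∫ ω, f3 ω ∂P + ∫ ω, f4 ω ∂P + ∫ ω, f5 ω ∂P + ∫ ω, f6 ω ∂P +
      ∫ ω, f7 ω ∂P + ∫ ω, f8 ω ∂P + ∫ ω, f9 ω ∂P := by
  have a2 := h1.add h2
  have a3 := a2.add h3
  have a4 := a3.add h4
  have a5 := a4.add h5
  have a6 := a5.add h6
  have a7 := a6.add h7
  have a8 := a7.add h8
  have a9 := a8.add h9
  refine ⟨a9, ?_⟩
  have e9 := integral_add a8 h9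
  have e8 := integral_add a7 h8
  have e7 := integral_add a6 h7
  have e6 := integral_add a5 h6
  have e5 := integral_add a4 h5
  have e4 := integral_add a3 h4
  have e3 := integral_add a2 h3
  have e2 := integral_add h1 h2
  simp only [Pi.add_apply] at e2 e3 e4 e5 e6 e7 e8 e9
  rw [e9, e8, e7, e6, e5, e4, e3, e2]

lemma intc {V : Type} [Fintype V] {u : V → Ω → ℝ} (c : ℝ) (h : ∀ z, Integrable (u z) P) :
    Integrable (fun ω => c * ∑ z, u z ω) P ∧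
    ∫ ω, c * ∑ z, u z ω ∂P = c * ∑ z, ∫ ω, u z ω ∂P := by
  have h1 : Integrable (fun ω => ∑ z, u z ω) P := integrable_finsetSum _ fun z _ => h z
  refine ⟨h1.const_mul c, ?_⟩
  rw [integral_const_mul, integral_finsetSum _ fun z _ => h z]

lemma intcc {V : Type} [Fintype V] {u : V → V → Ω → ℝ} (c : ℝ) (h : ∀ z z', Integrable (u z z') P) :
    Integrable (fun ω => c * ∑ z, ∑ z', u z z' ω) P ∧
    ∫ ω, c * ∑ z, ∑ z', u z z' ω ∂P = c * ∑ z, ∑ z', ∫ ω, u z z' ω ∂P := by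
  have h1 : ∀ z, Integrable (fun ω => ∑ z', u z z' ω) P := fun z =>
    integrable_finsetSum _ fun z' _ => h z z'
  obtain ⟨h2, h3⟩ := intc c h1
  refine ⟨h2, h3.trans ?_⟩
  congr 1
  refine Finset.sum_congr rfl fun z _ => ?_
  exact integral_finsetSum _ fun z' _ => h z z'

end

section
variable {Ω : Type} [MeasurableSpace Ω] {P : Measure Ω}

/-- Cauchy-Schwarz -/
lemma csq {f g : Ω → ℝ} (i1 : Integrable (fun ω => f ω ^ 2) P) (i2 : Integrable (fun ω => g ω ^ 2) P)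
    (i3 : Integrable (fun ω => f ω * g ω) P) :
    ∫ ω, f ω * g ω ∂P ≤ Real.sqrt ((∫ ω, f ω ^ 2 ∂P) * ∫ ω, g ω ^ 2 ∂P) := by
  have h : ∀ t : ℝ, 0 ≤ (∫ ω, g ω ^ 2 ∂P) * (t * t) + (-2 * ∫ ω, f ω * g ω ∂P) * t +
      ∫ ω, f ω ^ 2 ∂P := by
    intro t
    have h1 : 0 ≤ ∫ ω, (f ω - t * g ω) ^ 2 ∂P := integral_nonneg fun ω => sq_nonneg _
    have h2 : ∫ ω, (f ω - t * g ω) ^ 2 ∂P = ∫ ω, (f ω ^ 2 + (-2 * t) * (f ω * g ω)) +
        t ^ 2 * g ω ^ 2 ∂P := by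
      congr 1
      funext ω
      ring
    have h3 : Integrable (fun ω => f ω ^ 2 + (-2 * t) * (f ω * g ω)) P := i1.add (i3.const_mul _)
    rw [h2, integral_add h3 (i2.const_mul _), integral_add i1 (i3.const_mul _), integral_const_mul,
      integral_const_mul] at h1
    linarith
  have h1 := discrim_le_zero h
  unfold discrim at h1
  refine (le_abs_self _).trans (Real.abs_le_sqrt ?_)
  nlinarith

lemma le2 {u p q : Ω → ℝ} {c : ℝ} (iu : Integrable u P) (ip : Integrable p P) (iq : Integrable q P)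
    (h : ∀ ω, u ω ≤ c * (p ω + q ω)) : ∫ ω, u ω ∂P ≤ c * (∫ ω, p ω ∂P + ∫ ω, q ω ∂P) := by
  rw [← integral_add ip iq, ← integral_const_mul]
  exact integral_mono iu ((ip.add iq).const_mul c) h

lemma am1 {A B Z : Ω → ℝ} (lA : MemLp A 4 P) (lB : MemLp B 4 P) (lZ : MemLp Z 4 P) {ka kb : ℝ}
    (ha : 0 ≤ ka) (hb : 0 ≤ kb) :
    ∫ ω, |A ω| * |B ω| * (ka * Z ω * (kb * Z ω)) ∂P ≤
      ka * kb / 2 * (∫ ω, Z ω ^ 2 * A ω ^ 2 ∂P + ∫ ω, Z ω ^ 2 * B ω ^ 2 ∂P) := by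
  refine le2 (int_prod4 (memLp_abs lA) (memLp_abs lB) (lZ.const_mul ka) (lZ.const_mul kb))
    (int_sq2 lZ lA) (int_sq2 lZ lB) fun ω => ?_
  have h1 : 0 ≤ ka * kb * Z ω ^ 2 := by positivity
  have h2 : |A ω| * |B ω| ≤ (A ω ^ 2 + B ω ^ 2) / 2 := by
    nlinarith [sq_nonneg (|A ω| - |B ω|), sq_abs (A ω), sq_abs (B ω)]
  calc |A ω| * |B ω| * (ka * Z ω * (kb * Z ω)) = |A ω| * |B ω| * (ka * kb * Z ω ^ 2) := by ring
    _ ≤ (A ω ^ 2 + B ω ^ 2) / 2 * (ka * kb * Z ω ^ 2) := mul_le_mul_of_nonneg_right h2 h1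
    _ = _ := by ring

lemma am2 {A Z : Ω → ℝ} (lA : MemLp A 4 P) (lZ : MemLp Z 4 P) {ka kb : ℝ}
    (ha : 0 ≤ ka) :
    ∫ ω, |A ω| * (ka * Z ω) * (kb * Z ω * (kb * Z ω)) ∂P ≤
      ka * kb ^ 2 / 2 * (∫ ω, Z ω ^ 2 * Z ω ^ 2 ∂P + ∫ ω, Z ω ^ 2 * A ω ^ 2 ∂P) := by
  refine le2 (int_prod4 (memLp_abs lA) (lZ.const_mul ka) (lZ.const_mul kb) (lZ.const_mul kb))
    (int_sq2 lZ lZ) (int_sq2 lZ lA) fun ω => ?_
  have h1 : 0 ≤ ka * kb ^ 2 * Z ω ^ 2 := by positivity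
  have h2 : |A ω| * Z ω ≤ (Z ω ^ 2 + A ω ^ 2) / 2 := by
    nlinarith [sq_nonneg (|A ω| - Z ω), sq_abs (A ω)]
  calc |A ω| * (ka * Z ω) * (kb * Z ω * (kb * Z ω)) = |A ω| * Z ω * (ka * kb ^ 2 * Z ω ^ 2) := by ring
    _ ≤ (Z ω ^ 2 + A ω ^ 2) / 2 * (ka * kb ^ 2 * Z ω ^ 2) := mul_le_mul_of_nonneg_right h2 h1
    _ = _ := by ring

lemma cs1 {A B Z : Ω → ℝ} (lA : MemLp A 4 P) (lB : MemLp B 4 P) (lZ : MemLp Z 4 P) {ka kb : ℝ}
    (ha : 0 ≤ ka) (hb : 0 ≤ kb) :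
    ∫ ω, |A ω| * |B ω| * (ka * Z ω * (kb * Z ω)) ∂P ≤
      ka * kb * Real.sqrt ((∫ ω, A ω ^ 2 * Z ω ^ 2 ∂P) * ∫ ω, Z ω ^ 2 * B ω ^ 2 ∂P) := by
  have e1 : ∫ ω, |A ω| * |B ω| * (ka * Z ω * (kb * Z ω)) ∂P =
      ka * kb * ∫ ω, (|A ω| * Z ω) * (Z ω * |B ω|) ∂P := by
    rw [← integral_const_mul]
    congr 1
    funext ω
    ring
  rw [e1]
  apply mul_le_mul_of_nonneg_left _ (mul_nonneg ha hb)
  have q1 : ∀ ω, (|A ω| * Z ω) ^ 2 = A ω ^ 2 * Z ω ^ 2 := fun ω => by rw [mul_pow, sq_abs]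
  have q2 : ∀ ω, (Z ω * |B ω|) ^ 2 = Z ω ^ 2 * B ω ^ 2 := fun ω => by rw [mul_pow, sq_abs]
  have h := csq (P := P) (f := fun ω => |A ω| * Z ω) (g := fun ω => Z ω * |B ω|) ?_ ?_
    (int_prod4 (memLp_abs lA) lZ lZ (memLp_abs lB))
  · simp only [q1, q2] at h
    exact h
  · simp only [q1]
    exact int_sq2 lA lZ
  · simp only [q2]
    exact int_sq2 lZ lB

lemma cs2 {A Z : Ω → ℝ} (lA : MemLp A 4 P) (lZ : MemLp Z 4 P) {ka kb : ℝ}
    (ha : 0 ≤ ka) :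
    ∫ ω, |A ω| * (ka * Z ω) * (kb * Z ω * (kb * Z ω)) ∂P ≤
      ka * kb ^ 2 * Real.sqrt ((∫ ω, A ω ^ 2 * Z ω ^ 2 ∂P) * ∫ ω, Z ω ^ 2 * Z ω ^ 2 ∂P) := by
  have e1 : ∫ ω, |A ω| * (ka * Z ω) * (kb * Z ω * (kb * Z ω)) ∂P =
      ka * kb ^ 2 * ∫ ω, (|A ω| * Z ω) * (Z ω * Z ω) ∂P := by
    rw [← integral_const_mul]
    congr 1
    funext ω
    ring
  rw [e1]
  apply mul_le_mul_of_nonneg_left _ (mul_nonneg ha (sq_nonneg kb))
  have q1 : ∀ ω, (|A ω| * Z ω) ^ 2 = A ω ^ 2 * Z ω ^ 2 := fun ω => by rw [mul_pow, sq_abs]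
  have q2 : ∀ ω, (Z ω * Z ω) ^ 2 = Z ω ^ 2 * Z ω ^ 2 := fun ω => by rw [mul_pow]
  have h := csq (P := P) (f := fun ω => |A ω| * Z ω) (g := fun ω => Z ω * Z ω) ?_ ?_
    (int_prod4 (memLp_abs lA) lZ lZ lZ)
  · simp only [q1, q2] at h
    exact h
  · simp only [q1]
    exact int_sq2 lA lZ
  · simp only [q2]
    exact int_sq2 lZ lZ

end

/-- one layer of noise, the past frozen -/
theorem gen (hIND : S_IND) (hFRZ : S_FRZ) (hALG : S_ALG) {V : Type} [Fintype V] [DecidableEq V]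
    {Ω : Type} [MeasurableSpace Ω] {P : Measure Ω} [IsProbabilityMeasure P] {s2 κ : ℝ}
    {η : ℕ → V → Ω → ℝ} (hN : Noise P s2 κ η) (j : ℕ)
    (A0 B0 : (ℕ → V → ℝ) → ℝ) (g0 h0 : (ℕ → V → ℝ) → V → ℝ)
    (mA : Measurable A0) (mB : Measurable B0) (mg : ∀ z, Measurable fun x => g0 x z)
    (mh : ∀ z, Measurable fun x => h0 x z)
    (A B : Ω → ℝ) (g h : V → Ω → ℝ)
    (eA : ∀ ω, A0 (cut j (cfg η ω)) = A ω) (eB : ∀ ω, B0 (cut j (cfg η ω)) = B ω)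
    (eg : ∀ ω z, g0 (cut j (cfg η ω)) z = g z ω) (eh : ∀ ω z, h0 (cut j (cfg η ω)) z = h z ω)
    (lA : MemLp A 4 P) (lB : MemLp B 4 P) (lg : ∀ z, MemLp (g z) 4 P) (lh : ∀ z, MemLp (h z) 4 P)
    (ng : ∀ z ω, 0 ≤ g z ω) (nh : ∀ z ω, 0 ≤ h z ω)
    (lU : MemLp (fun ω => A ω + ∑ z, g z ω * η (j + 1) z ω) 4 P)
    (lW : MemLp (fun ω => B ω + ∑ z, h z ω * η (j + 1) z ω) 4 P) :
    ∫ ω, (A ω + ∑ z, g z ω * η (j + 1) z ω) ^ 2 * (B ω + ∑ z, h z ω * η (j + 1) z ω) ^ 2 ∂P ≤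
      ∫ ω, A ω ^ 2 * B ω ^ 2 ∂P + s2 * ∑ z, ∫ ω, A ω ^ 2 * h z ω ^ 2 ∂P
        + s2 * ∑ z, ∫ ω, B ω ^ 2 * g z ω ^ 2 ∂P
        + 4 * s2 * ∑ z, ∫ ω, |A ω| * |B ω| * (g z ω * h z ω) ∂P
        + 2 * κ * s2 * ∑ z, ∫ ω, |A ω| * g z ω * (h z ω * h z ω) ∂P
        + 2 * κ * s2 * ∑ z, ∫ ω, |B ω| * h z ω * (g z ω * g z ω) ∂P
        + κ * s2 * ∑ z, ∫ ω, g z ω ^ 2 * h z ω ^ 2 ∂P
        + s2 ^ 2 * ∑ z, ∑ z', ∫ ω, g z ω ^ 2 * h z' ω ^ 2 ∂P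
        + 2 * s2 ^ 2 * ∑ z, ∑ z', ∫ ω, g z ω * h z ω * (g z' ω * h z' ω) ∂P := by
  obtain ⟨-, hI, -⟩ := hIND V Ω P s2 κ η hN j
  obtain ⟨f, hf⟩ : ∃ f : (ℕ → V → ℝ) × (V → ℝ) → ℝ, f = fun p =>
    (A0 p.1 + ∑ z, g0 p.1 z * p.2 z) ^ 2 * (B0 p.1 + ∑ z, h0 p.1 z * p.2 z) ^ 2 := ⟨_, rfl⟩
  have mf : Measurable f := by
    rw [hf]
    have m1 : Measurable fun p : (ℕ → V → ℝ) × (V → ℝ) => A0 p.1 := mA.comp measurable_fst
    have m2 : Measurable fun p : (ℕ → V → ℝ) × (V → ℝ) => B0 p.1 := mB.comp measurable_fst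
    have m3 : ∀ z, Measurable fun p : (ℕ → V → ℝ) × (V → ℝ) => g0 p.1 z * p.2 z := fun z =>
      ((mg z).comp measurable_fst).mul ((measurable_pi_apply z).comp measurable_snd)
    have m4 : ∀ z, Measurable fun p : (ℕ → V → ℝ) × (V → ℝ) => h0 p.1 z * p.2 z := fun z =>
      ((mh z).comp measurable_fst).mul ((measurable_pi_apply z).comp measurable_snd)
    exact ((m1.add (Finset.measurable_fun_sum _ fun z _ => m3 z)).pow_const 2).mul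
      ((m2.add (Finset.measurable_fun_sum _ fun z _ => m4 z)).pow_const 2)
  have mX : Measurable fun ω => cut j (cfg η ω) := by
    rw [measurable_pi_iff]
    intro n
    rw [measurable_pi_iff]
    intro v
    by_cases hn : n ≤ j
    · have : (fun ω => cut j (cfg η ω) n v) = fun ω => η n v ω := by
        funext ω
        simp [cut, cfg, hn]
      rw [this]
      exact hN.meas n v
    · have : (fun ω => cut j (cfg η ω) n v) = fun _ => 0 := by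
        funext ω
        simp [cut, hn]
      rw [this]
      exact measurable_const
  have mY : Measurable fun ω (v : V) => η (j + 1) v ω := by
    rw [measurable_pi_iff]
    exact fun v => hN.meas (j + 1) v
  have hval : ∀ ω ω', f (cut j (cfg η ω), fun v => η (j + 1) v ω') =
      (A ω + ∑ z, g z ω * η (j + 1) z ω') ^ 2 * (B ω + ∑ z, h z ω * η (j + 1) z ω') ^ 2 := by
    intro ω ω'
    rw [hf]
    simp only [eA, eB, eg, eh]
  have hint : Integrable (fun ω => f (cut j (cfg η ω), fun v => η (j + 1) v ω)) P := by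
    refine (int_sq2 lU lW).congr (Eventually.of_forall fun ω => ?_)
    exact (hval ω ω).symm
  obtain ⟨e1, i1, -⟩ := hFRZ Ω (ℕ → V → ℝ) (V → ℝ) ℝ P (fun ω => cut j (cfg η ω))
    (fun ω (v : V) => η (j + 1) v ω) f mX mY mf hI hint
  simp only [hval] at e1 i1
  rw [e1]
  -- the terms
  have t1 := int_sq2 lA lB
  have t2 := intc s2 (fun z => int_sq2 lA (lh z))
  have t3 := intc s2 (fun z => int_sq2 lB (lg z))
  have t4 := intc (4 * s2) (fun z => int_prod4 (memLp_abs lA) (memLp_abs lB) (lg z) (lh z))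
  have t5 := intc (2 * κ * s2) (fun z => int_prod4 (memLp_abs lA) (lg z) (lh z) (lh z))
  have t6 := intc (2 * κ * s2) (fun z => int_prod4 (memLp_abs lB) (lh z) (lg z) (lg z))
  have t7 := intc (κ * s2) (fun z => int_sq2 (lg z) (lh z))
  have t8 := intcc (s2 ^ 2) (fun z z' => int_sq2 (lg z) (lh z'))
  have t9 := intcc (2 * s2 ^ 2) (fun z z' => int_prod4 (lg z) (lh z) (lg z') (lh z'))
  obtain ⟨iR, eR⟩ := int9 t1 t2.1 t3.1 t4.1 t5.1 t6.1 t7.1 t8.1 t9.1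
  rw [t2.2, t3.2, t4.2, t5.2, t6.2, t7.2, t8.2, t9.2] at eR
  rw [← eR]
  apply integral_mono i1 iR
  intro ω
  have h5 := (hALG V Ω P s2 κ η hN (j + 1) (A ω) (B ω) (fun z => g z ω) (fun z => h z ω)
    (fun z => ng z ω) (fun z => nh z ω)).2.1
  refine h5.trans (le_of_eq ?_)
  have c2 : A ω ^ 2 * ∑ z, h z ω ^ 2 = ∑ z, A ω ^ 2 * h z ω ^ 2 := Finset.mul_sum _ _ _
  have c3 : B ω ^ 2 * ∑ z, g z ω ^ 2 = ∑ z, B ω ^ 2 * g z ω ^ 2 := Finset.mul_sum _ _ _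
  have c4 : |A ω| * |B ω| * ∑ z, g z ω * h z ω = ∑ z, |A ω| * |B ω| * (g z ω * h z ω) :=
    Finset.mul_sum _ _ _
  have c5 : |A ω| * ∑ z, g z ω * h z ω ^ 2 = ∑ z, |A ω| * g z ω * (h z ω * h z ω) := by
    rw [Finset.mul_sum]
    exact Finset.sum_congr rfl fun z _ => by ring
  have c6 : |B ω| * ∑ z, g z ω ^ 2 * h z ω = ∑ z, |B ω| * h z ω * (g z ω * g z ω) := by
    rw [Finset.mul_sum]
    exact Finset.sum_congr rfl fun z _ => by ring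
  simp only [c2, c3, c4, c5, c6]

section
variable {V : Type} [Fintype V] [DecidableEq V] {C0 : ℝ} {N0 : ℕ}

lemma sm_zero (W : Wlk V C0 N0) (f : V → ℝ) (z : V) : sm W 0 f z = f z := by
  unfold sm
  simp only [W.K_zero, ite_mul, one_mul, zero_mul]
  rw [Finset.sum_ite_eq]
  simp

lemma sm_succ (W : Wlk V C0 N0) (x : ℕ → V → ℝ) (j a : ℕ) (y : V) :
    sm W a (Zr W x (j + 1)) y = sm W (a + 1) (Zr W x j) y +
      ∑ z, W.K (a + 1) y z * Zr W x j z * x (j + 1) z := by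
  unfold sm
  have h1 : ∀ z, Zr W x (j + 1) z = ∑ z', W.K 1 z z' * ((1 + x (j + 1) z') * Zr W x j z') := fun z => rfl
  simp only [h1, Finset.mul_sum]
  rw [Finset.sum_comm, ← Finset.sum_add_distrib]
  refine Finset.sum_congr rfl fun z' _ => ?_
  rw [W.K_add a 1 y z', Finset.sum_mul, Finset.sum_mul, ← Finset.sum_add_distrib]
  refine Finset.sum_congr rfl fun z _ => ?_
  ring

lemma sm_cut {x : ℕ → V → ℝ} {W : Wlk V C0 N0} {j : ℕ} (h : Zr W x j = Zr W (cut j x) j) (a : ℕ)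
    (y : V) : sm W a (Zr W (cut j x) j) y = sm W a (Zr W x j) y := by
  rw [← h]

lemma meas_sm {W : Wlk V C0 N0} {j : ℕ} (h : ∀ y, Measurable (fun x : ℕ → V → ℝ => Zr W x j y))
    (a : ℕ) (y : V) : Measurable (fun x : ℕ → V → ℝ => sm W a (Zr W x j) y) := by
  unfold sm
  exact Finset.measurable_fun_sum _ fun z _ => (h z).const_mul _

lemma mem_sm {Ω : Type} [MeasurableSpace Ω] {P : Measure Ω} {W : Wlk V C0 N0} {j : ℕ}
    {η : ℕ → V → Ω → ℝ} (h : ∀ y, MemLp (fun ω => Zr W (cfg η ω) j y) 4 P) (a : ℕ) (y : V) :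
    MemLp (fun ω => sm W a (Zr W (cfg η ω) j) y) 4 P := by
  unfold sm
  exact memLp_finsetSum _ fun z _ => (h z).const_mul _

end

end Pool.Agent.H696.QC
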