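import Pool.Agent.H696.QC.Gen

/-! # QC (helper696): one step for `G4` -/

set_option autoImplicit false

open MeasureTheory ProbabilityTheory Filter Finset
open Pool.Agent.H964.QC

namespace Pool.Agent.H696.QC

theorem t_T1 : S_MEAS → S_IND → S_FRZ → S_ALG → S_T1 := by
  intro hMEAS hIND hFRZ hALG V _ _ C0 N0 W Ω _ P _ s2 κ η hs hk hN j a b y v
  obtain ⟨-, pos, cutq, mZ, -, -, -, lZ, -⟩ := hMEAS V C0 N0 W Ω P s2 κ η hN
  have hG0 : ∀ i c z z', 0 ≤ G4 W P η i 0 c z z' := fun i c z z' =>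
    integral_nonneg fun ω => by positivity
  refine ⟨fun z z' => integral_nonneg fun ω => by positivity, ?_, ?_⟩
  · unfold G4
    have h1 : ∀ (c : ℕ) (u : V) (x : ℕ → V → ℝ), sm W c (Zr W x 0) u = 1 := by
      intro c u x
      unfold sm
      have : ∀ z, Zr W x 0 z = 1 := fun z => rfl
      simp only [this, mul_one]
      exact W.K_sum c u
    simp only [h1]
    simp
  -- the fields
  have posZ : ∀ z ω, 0 ≤ Zr W (cfg η ω) j z := fun z ω =>
    (pos (cfg η ω) j z fun n v => hN.gt n v ω).le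
  have lZ' : ∀ z, MemLp (fun ω => Zr W (cfg η ω) j z) 4 P := fun z => lZ j z
  have lA := mem_sm lZ' (a + 1) y
  have lB := mem_sm lZ' (b + 1) v
  have lU := mem_sm (fun z => lZ (j + 1) z) a y
  have lW := mem_sm (fun z => lZ (j + 1) z) b v
  have hg := gen hIND hFRZ hALG hN j (fun x => sm W (a + 1) (Zr W x j) y)
    (fun x => sm W (b + 1) (Zr W x j) v) (fun x z => W.K (a + 1) y z * Zr W x j z)
    (fun x z => W.K (b + 1) v z * Zr W x j z) (meas_sm (mZ j) (a + 1) y)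
    (meas_sm (mZ j) (b + 1) v) (fun z => (mZ j z).const_mul _) (fun z => (mZ j z).const_mul _)
    (fun ω => sm W (a + 1) (Zr W (cfg η ω) j) y) (fun ω => sm W (b + 1) (Zr W (cfg η ω) j) v)
    (fun z ω => W.K (a + 1) y z * Zr W (cfg η ω) j z)
    (fun z ω => W.K (b + 1) v z * Zr W (cfg η ω) j z)
    (fun ω => by simp only [← cutq]) (fun ω => by simp only [← cutq])
    (fun ω z => by simp only [← cutq]) (fun ω z => by simp only [← cutq]) lA lB
    (fun z => (lZ j z).const_mul _) (fun z => (lZ j z).const_mul _)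
    (fun z ω => mul_nonneg (W.K_nonneg _ _ _) (posZ z ω))
    (fun z ω => mul_nonneg (W.K_nonneg _ _ _) (posZ z ω))
    (by
      refine lU.ae_eq (Eventually.of_forall fun ω => ?_)
      simp only
      rw [sm_succ]
      rfl)
    (by
      refine lW.ae_eq (Eventually.of_forall fun ω => ?_)
      simp only
      rw [sm_succ]
      rfl)
  have e0 : G4 W P η (j + 1) a b y v = ∫ ω, (sm W (a + 1) (Zr W (cfg η ω) j) y +
      ∑ z, W.K (a + 1) y z * Zr W (cfg η ω) j z * η (j + 1) z ω) ^ 2 *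
      (sm W (b + 1) (Zr W (cfg η ω) j) v +
      ∑ z, W.K (b + 1) v z * Zr W (cfg η ω) j z * η (j + 1) z ω) ^ 2 ∂P := by
    unfold G4
    simp only [sm_succ]
    rfl
  rw [← e0] at hg
  have gA : ∀ z, G4 W P η j 0 (a + 1) z y =
      ∫ ω, Zr W (cfg η ω) j z ^ 2 * sm W (a + 1) (Zr W (cfg η ω) j) y ^ 2 ∂P := by
    intro z
    unfold G4
    simp only [sm_zero]
  have gB : ∀ z, G4 W P η j 0 (b + 1) z v =
      ∫ ω, Zr W (cfg η ω) j z ^ 2 * sm W (b + 1) (Zr W (cfg η ω) j) v ^ 2 ∂P := by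
    intro z
    unfold G4
    simp only [sm_zero]
  have gZ : ∀ z z', G4 W P η j 0 0 z z' =
      ∫ ω, Zr W (cfg η ω) j z ^ 2 * Zr W (cfg η ω) j z' ^ 2 ∂P := by
    intro z z'
    unfold G4
    simp only [sm_zero]
  -- the terms
  have t1 : ∫ ω, sm W (a + 1) (Zr W (cfg η ω) j) y ^ 2 * sm W (b + 1) (Zr W (cfg η ω) j) v ^ 2 ∂P =
      G4 W P η j (a + 1) (b + 1) y v := rfl
  have t2 : ∑ z, ∫ ω, sm W (a + 1) (Zr W (cfg η ω) j) y ^ 2 *
      (W.K (b + 1) v z * Zr W (cfg η ω) j z) ^ 2 ∂P =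
      ∑ z, W.K (b + 1) v z ^ 2 * G4 W P η j 0 (a + 1) z y := by
    refine Finset.sum_congr rfl fun z _ => ?_
    rw [gA, ← integral_const_mul]
    congr 1
    funext ω
    ring
  have t3 : ∑ z, ∫ ω, sm W (b + 1) (Zr W (cfg η ω) j) v ^ 2 *
      (W.K (a + 1) y z * Zr W (cfg η ω) j z) ^ 2 ∂P =
      ∑ z, W.K (a + 1) y z ^ 2 * G4 W P η j 0 (b + 1) z v := by
    refine Finset.sum_congr rfl fun z _ => ?_
    rw [gB, ← integral_const_mul]
    congr 1
    funext ω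
    ring
  have t4 : 4 * s2 * ∑ z, ∫ ω, |sm W (a + 1) (Zr W (cfg η ω) j) y| *
      |sm W (b + 1) (Zr W (cfg η ω) j) v| * (W.K (a + 1) y z * Zr W (cfg η ω) j z *
        (W.K (b + 1) v z * Zr W (cfg η ω) j z)) ∂P ≤
      2 * s2 * ∑ z, W.K (a + 1) y z * W.K (b + 1) v z *
        (G4 W P η j 0 (a + 1) z y + G4 W P η j 0 (b + 1) z v) := by
    have h1 : ∑ z, ∫ ω, |sm W (a + 1) (Zr W (cfg η ω) j) y| *
      |sm W (b + 1) (Zr W (cfg η ω) j) v| * (W.K (a + 1) y z * Zr W (cfg η ω) j z *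
        (W.K (b + 1) v z * Zr W (cfg η ω) j z)) ∂P ≤
        ∑ z, W.K (a + 1) y z * W.K (b + 1) v z / 2 *
        (G4 W P η j 0 (a + 1) z y + G4 W P η j 0 (b + 1) z v) := by
      refine Finset.sum_le_sum fun z _ => ?_
      rw [gA, gB]
      exact am1 lA lB (lZ' z) (W.K_nonneg _ _ _) (W.K_nonneg _ _ _)
    have h2 : ∑ z, W.K (a + 1) y z * W.K (b + 1) v z / 2 *
        (G4 W P η j 0 (a + 1) z y + G4 W P η j 0 (b + 1) z v) =
        1 / 2 * ∑ z, W.K (a + 1) y z * W.K (b + 1) v z *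
        (G4 W P η j 0 (a + 1) z y + G4 W P η j 0 (b + 1) z v) := by
      rw [Finset.mul_sum]
      exact Finset.sum_congr rfl fun z _ => by ring
    rw [h2] at h1
    have h3 := mul_le_mul_of_nonneg_left h1 (by positivity : (0:ℝ) ≤ 4 * s2)
    refine h3.trans (le_of_eq ?_)
    ring
  have t5 : 2 * κ * s2 * ∑ z, ∫ ω, |sm W (a + 1) (Zr W (cfg η ω) j) y| *
      (W.K (a + 1) y z * Zr W (cfg η ω) j z) * (W.K (b + 1) v z * Zr W (cfg η ω) j z *
        (W.K (b + 1) v z * Zr W (cfg η ω) j z)) ∂P ≤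
      κ * s2 * ∑ z, W.K (a + 1) y z * W.K (b + 1) v z ^ 2 *
        (G4 W P η j 0 0 z z + G4 W P η j 0 (a + 1) z y) := by
    have h1 : ∑ z, ∫ ω, |sm W (a + 1) (Zr W (cfg η ω) j) y| *
      (W.K (a + 1) y z * Zr W (cfg η ω) j z) * (W.K (b + 1) v z * Zr W (cfg η ω) j z *
        (W.K (b + 1) v z * Zr W (cfg η ω) j z)) ∂P ≤
        ∑ z, W.K (a + 1) y z * W.K (b + 1) v z ^ 2 / 2 *
        (G4 W P η j 0 0 z z + G4 W P η j 0 (a + 1) z y) := by
      refine Finset.sum_le_sum fun z _ => ?_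
      rw [gA, gZ]
      exact am2 lA (lZ' z) (W.K_nonneg _ _ _)
    have h2 : ∑ z, W.K (a + 1) y z * W.K (b + 1) v z ^ 2 / 2 *
        (G4 W P η j 0 0 z z + G4 W P η j 0 (a + 1) z y) =
        1 / 2 * ∑ z, W.K (a + 1) y z * W.K (b + 1) v z ^ 2 *
        (G4 W P η j 0 0 z z + G4 W P η j 0 (a + 1) z y) := by
      rw [Finset.mul_sum]
      exact Finset.sum_congr rfl fun z _ => by ring
    rw [h2] at h1
    have h3 := mul_le_mul_of_nonneg_left h1 (by positivity : (0:ℝ) ≤ 2 * κ * s2)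
    refine h3.trans (le_of_eq ?_)
    ring
  have t6 : 2 * κ * s2 * ∑ z, ∫ ω, |sm W (b + 1) (Zr W (cfg η ω) j) v| *
      (W.K (b + 1) v z * Zr W (cfg η ω) j z) * (W.K (a + 1) y z * Zr W (cfg η ω) j z *
        (W.K (a + 1) y z * Zr W (cfg η ω) j z)) ∂P ≤
      κ * s2 * ∑ z, W.K (a + 1) y z ^ 2 * W.K (b + 1) v z *
        (G4 W P η j 0 0 z z + G4 W P η j 0 (b + 1) z v) := by
    have h1 : ∑ z, ∫ ω, |sm W (b + 1) (Zr W (cfg η ω) j) v| *
      (W.K (b + 1) v z * Zr W (cfg η ω) j z) * (W.K (a + 1) y z * Zr W (cfg η ω) j z *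
        (W.K (a + 1) y z * Zr W (cfg η ω) j z)) ∂P ≤
        ∑ z, W.K (b + 1) v z * W.K (a + 1) y z ^ 2 / 2 *
        (G4 W P η j 0 0 z z + G4 W P η j 0 (b + 1) z v) := by
      refine Finset.sum_le_sum fun z _ => ?_
      rw [gB, gZ]
      exact am2 lB (lZ' z) (W.K_nonneg _ _ _)
    have h2 : ∑ z, W.K (b + 1) v z * W.K (a + 1) y z ^ 2 / 2 *
        (G4 W P η j 0 0 z z + G4 W P η j 0 (b + 1) z v) =
        1 / 2 * ∑ z, W.K (a + 1) y z ^ 2 * W.K (b + 1) v z *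
        (G4 W P η j 0 0 z z + G4 W P η j 0 (b + 1) z v) := by
      rw [Finset.mul_sum]
      exact Finset.sum_congr rfl fun z _ => by ring
    rw [h2] at h1
    have h3 := mul_le_mul_of_nonneg_left h1 (by positivity : (0:ℝ) ≤ 2 * κ * s2)
    refine h3.trans (le_of_eq ?_)
    ring
  have t7 : ∑ z, ∫ ω, (W.K (a + 1) y z * Zr W (cfg η ω) j z) ^ 2 *
      (W.K (b + 1) v z * Zr W (cfg η ω) j z) ^ 2 ∂P =
      ∑ z, W.K (a + 1) y z ^ 2 * W.K (b + 1) v z ^ 2 * G4 W P η j 0 0 z z := by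
    refine Finset.sum_congr rfl fun z _ => ?_
    rw [gZ, ← integral_const_mul]
    congr 1
    funext ω
    ring
  have t8 : ∑ z, ∑ z', ∫ ω, (W.K (a + 1) y z * Zr W (cfg η ω) j z) ^ 2 *
      (W.K (b + 1) v z' * Zr W (cfg η ω) j z') ^ 2 ∂P =
      ∑ z, ∑ z', W.K (a + 1) y z ^ 2 * W.K (b + 1) v z' ^ 2 * G4 W P η j 0 0 z z' := by
    refine Finset.sum_congr rfl fun z _ => Finset.sum_congr rfl fun z' _ => ?_
    rw [gZ, ← integral_const_mul]
    congr 1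
    funext ω
    ring
  have t9 : ∑ z, ∑ z', ∫ ω, W.K (a + 1) y z * Zr W (cfg η ω) j z *
      (W.K (b + 1) v z * Zr W (cfg η ω) j z) * (W.K (a + 1) y z' * Zr W (cfg η ω) j z' *
        (W.K (b + 1) v z' * Zr W (cfg η ω) j z')) ∂P =
      ∑ z, ∑ z', W.K (a + 1) y z * W.K (b + 1) v z *
        (W.K (a + 1) y z' * W.K (b + 1) v z') * G4 W P η j 0 0 z z' := by
    refine Finset.sum_congr rfl fun z _ => Finset.sum_congr rfl fun z' _ => ?_
    rw [gZ, ← integral_const_mul]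
    congr 1
    funext ω
    ring
  rw [t1, t2, t3, t7, t8, t9] at hg
  linarith

end Pool.Agent.H696.QC
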