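import Pool.Agent.H696.QC.Gen

/-! # QC (helper696): one step for `N4` -/

set_option autoImplicit false

open MeasureTheory ProbabilityTheory Filter Finset
open Pool.Agent.H964.QC

namespace Pool.Agent.H696.QC

lemma XX_succ {V : Type} [Fintype V] [DecidableEq V] {C0 : ℝ} {N0 : ℕ} (hOV : S_OV)
    (W : Wlk V C0 N0) {w : V → ℝ} (hw : ∀ x, 0 ≤ w x) {T j : ℕ} (hj : j + 1 ≤ T)
    (x : ℕ → V → ℝ) : XX W w T x (j + 1) = XX W w T x j +
      ∑ z, wt W w (T - j) z * Zr W x j z * x (j + 1) z := by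
  obtain ⟨-, -, hadd, hsum, -⟩ := hOV V C0 N0 W w hw
  obtain ⟨m, hm⟩ : ∃ m, m = T - (j + 1) := ⟨_, rfl⟩
  have hm1 : T - j = m + 1 := by omega
  unfold XX
  rw [← hm, hm1]
  have h1 : ∀ z, Zr W x (j + 1) z = ∑ z', W.K 1 z z' * ((1 + x (j + 1) z') * Zr W x j z') := fun z => rfl
  have h2 : ∀ z', wt W w (m + 1) z' = ∑ z, wt W w m z * W.K 1 z z' := by
    intro z'
    rw [← hadd m 1]
    rfl
  have h3 : ∑ z, wt W w m z * (Zr W x (j + 1) z - 1) =
      ∑ z', wt W w (m + 1) z' * ((1 + x (j + 1) z') * Zr W x j z') - ∑ z, w z := by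
    simp only [mul_sub, mul_one]
    rw [Finset.sum_sub_distrib, hsum m]
    congr 1
    simp only [h1, h2, Finset.mul_sum, Finset.sum_mul]
    rw [Finset.sum_comm]
    refine Finset.sum_congr rfl fun z' _ => Finset.sum_congr rfl fun z _ => ?_
    ring
  have h4 : ∑ z, wt W w (m + 1) z * (Zr W x j z - 1) =
      ∑ z, wt W w (m + 1) z * Zr W x j z - ∑ z, w z := by
    simp only [mul_sub, mul_one]
    rw [Finset.sum_sub_distrib, hsum (m + 1)]
  rw [h3, h4]
  have h5 : ∑ z', wt W w (m + 1) z' * ((1 + x (j + 1) z') * Zr W x j z') =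
      ∑ z, wt W w (m + 1) z * Zr W x j z + ∑ z, wt W w (m + 1) z * Zr W x j z * x (j + 1) z := by
    rw [← Finset.sum_add_distrib]
    exact Finset.sum_congr rfl fun z _ => by ring
  rw [h5]
  ring

theorem t_T3 : S_MEAS → S_IND → S_FRZ → S_ALG → S_OV → S_T3 := by
  intro hMEAS hIND hFRZ hALG hOV V _ _ C0 N0 W Ω _ P _ s2 κ η hs hk hN w hw T j a y hjT
  obtain ⟨-, pos, cutq, mZ, -, -, -, lZ, -⟩ := hMEAS V C0 N0 W Ω P s2 κ η hN
  obtain ⟨hwt, -, -, -, -⟩ := hOV V C0 N0 W w hw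
  refine ⟨fun z => integral_nonneg fun ω => by positivity, ?_, ?_⟩
  · unfold N4
    have h1 : ∀ x : ℕ → V → ℝ, XX W w T x 0 = 0 := by
      intro x
      unfold XX
      have : ∀ z, Zr W x 0 z = 1 := fun z => rfl
      simp only [this, sub_self, mul_zero]
      exact Finset.sum_const_zero
    simp only [h1]
    simp
  -- the fields
  have posZ : ∀ z ω, 0 ≤ Zr W (cfg η ω) j z := fun z ω =>
    (pos (cfg η ω) j z fun n v => hN.gt n v ω).le
  have lZ' : ∀ z, MemLp (fun ω => Zr W (cfg η ω) j z) 4 P := fun z => lZ j z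
  have lX : ∀ i, MemLp (fun ω => XX W w T (cfg η ω) i) 4 P := by
    intro i
    unfold XX
    exact memLp_finsetSum _ fun z _ => ((lZ i z).sub (memLp_const 1)).const_mul _
  have mX : Measurable (fun x : ℕ → V → ℝ => XX W w T x j) := by
    unfold XX
    exact Finset.measurable_fun_sum _ fun z _ => ((mZ j z).sub_const 1).const_mul _
  have lA := lX j
  have lB := mem_sm lZ' (a + 1) y
  have lU := lX (j + 1)
  have lW := mem_sm (fun z => lZ (j + 1) z) a y
  have hg := gen hIND hFRZ hALG hN j (fun x => XX W w T x j)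
    (fun x => sm W (a + 1) (Zr W x j) y) (fun x z => wt W w (T - j) z * Zr W x j z)
    (fun x z => W.K (a + 1) y z * Zr W x j z) mX
    (meas_sm (mZ j) (a + 1) y) (fun z => (mZ j z).const_mul _) (fun z => (mZ j z).const_mul _)
    (fun ω => XX W w T (cfg η ω) j) (fun ω => sm W (a + 1) (Zr W (cfg η ω) j) y)
    (fun z ω => wt W w (T - j) z * Zr W (cfg η ω) j z)
    (fun z ω => W.K (a + 1) y z * Zr W (cfg η ω) j z)
    (fun ω => by unfold XX; simp only [← cutq]) (fun ω => by simp only [← cutq])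
    (fun ω z => by simp only [← cutq]) (fun ω z => by simp only [← cutq]) lA lB
    (fun z => (lZ j z).const_mul _) (fun z => (lZ j z).const_mul _)
    (fun z ω => mul_nonneg (hwt _ _) (posZ z ω))
    (fun z ω => mul_nonneg (W.K_nonneg _ _ _) (posZ z ω))
    (by
      refine lU.ae_eq (Eventually.of_forall fun ω => ?_)
      simp only
      rw [XX_succ hOV W hw hjT]
      rfl)
    (by
      refine lW.ae_eq (Eventually.of_forall fun ω => ?_)
      simp only
      rw [sm_succ]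
      rfl)
  have e0 : N4 W P η w T (j + 1) a y = ∫ ω, (XX W w T (cfg η ω) j +
      ∑ z, wt W w (T - j) z * Zr W (cfg η ω) j z * η (j + 1) z ω) ^ 2 *
      (sm W (a + 1) (Zr W (cfg η ω) j) y +
      ∑ z, W.K (a + 1) y z * Zr W (cfg η ω) j z * η (j + 1) z ω) ^ 2 ∂P := by
    unfold N4
    simp only [sm_succ, XX_succ hOV W hw hjT]
    rfl
  rw [← e0] at hg
  have gA : ∀ z, N4 W P η w T j 0 z =
      ∫ ω, XX W w T (cfg η ω) j ^ 2 * Zr W (cfg η ω) j z ^ 2 ∂P := by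
    intro z
    unfold N4
    simp only [sm_zero]
  have gB : ∀ z, G4 W P η j 0 (a + 1) z y =
      ∫ ω, Zr W (cfg η ω) j z ^ 2 * sm W (a + 1) (Zr W (cfg η ω) j) y ^ 2 ∂P := by
    intro z
    unfold G4
    simp only [sm_zero]
  have gZ : ∀ z z', G4 W P η j 0 0 z z' =
      ∫ ω, Zr W (cfg η ω) j z ^ 2 * Zr W (cfg η ω) j z' ^ 2 ∂P := by
    intro z z'
    unfold G4
    simp only [sm_zero]
  -- the terms
  have t1 : ∫ ω, XX W w T (cfg η ω) j ^ 2 * sm W (a + 1) (Zr W (cfg η ω) j) y ^ 2 ∂P =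
      N4 W P η w T j (a + 1) y := rfl
  have t2 : ∑ z, ∫ ω, XX W w T (cfg η ω) j ^ 2 *
      (W.K (a + 1) y z * Zr W (cfg η ω) j z) ^ 2 ∂P =
      ∑ z, W.K (a + 1) y z ^ 2 * N4 W P η w T j 0 z := by
    refine Finset.sum_congr rfl fun z _ => ?_
    rw [gA, ← integral_const_mul]
    congr 1
    funext ω
    ring
  have t3 : ∑ z, ∫ ω, sm W (a + 1) (Zr W (cfg η ω) j) y ^ 2 *
      (wt W w (T - j) z * Zr W (cfg η ω) j z) ^ 2 ∂P =
      ∑ z, wt W w (T - j) z ^ 2 * G4 W P η j 0 (a + 1) z y := by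
    refine Finset.sum_congr rfl fun z _ => ?_
    rw [gB, ← integral_const_mul]
    congr 1
    funext ω
    ring
  have t4 : 4 * s2 * ∑ z, ∫ ω, |XX W w T (cfg η ω) j| *
      |sm W (a + 1) (Zr W (cfg η ω) j) y| * (wt W w (T - j) z * Zr W (cfg η ω) j z *
        (W.K (a + 1) y z * Zr W (cfg η ω) j z)) ∂P ≤
      4 * s2 * ∑ z, wt W w (T - j) z * W.K (a + 1) y z *
        Real.sqrt (N4 W P η w T j 0 z * G4 W P η j 0 (a + 1) z y) := by
    refine mul_le_mul_of_nonneg_left ?_ (by positivity)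
    refine Finset.sum_le_sum fun z _ => ?_
    rw [gA, gB]
    exact cs1 lA lB (lZ' z) (hwt _ _) (W.K_nonneg _ _ _)
  have t5 : 2 * κ * s2 * ∑ z, ∫ ω, |XX W w T (cfg η ω) j| *
      (wt W w (T - j) z * Zr W (cfg η ω) j z) * (W.K (a + 1) y z * Zr W (cfg η ω) j z *
        (W.K (a + 1) y z * Zr W (cfg η ω) j z)) ∂P ≤
      2 * κ * s2 * ∑ z, wt W w (T - j) z * W.K (a + 1) y z ^ 2 *
        Real.sqrt (N4 W P η w T j 0 z * G4 W P η j 0 0 z z) := by
    refine mul_le_mul_of_nonneg_left ?_ (by positivity)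
    refine Finset.sum_le_sum fun z _ => ?_
    rw [gA, gZ]
    exact cs2 lA (lZ' z) (hwt _ _)
  have t6 : 2 * κ * s2 * ∑ z, ∫ ω, |sm W (a + 1) (Zr W (cfg η ω) j) y| *
      (W.K (a + 1) y z * Zr W (cfg η ω) j z) * (wt W w (T - j) z * Zr W (cfg η ω) j z *
        (wt W w (T - j) z * Zr W (cfg η ω) j z)) ∂P ≤
      κ * s2 * ∑ z, wt W w (T - j) z ^ 2 * W.K (a + 1) y z *
        (G4 W P η j 0 0 z z + G4 W P η j 0 (a + 1) z y) := by
    have h1 : ∑ z, ∫ ω, |sm W (a + 1) (Zr W (cfg η ω) j) y| *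
      (W.K (a + 1) y z * Zr W (cfg η ω) j z) * (wt W w (T - j) z * Zr W (cfg η ω) j z *
        (wt W w (T - j) z * Zr W (cfg η ω) j z)) ∂P ≤
        ∑ z, W.K (a + 1) y z * wt W w (T - j) z ^ 2 / 2 *
        (G4 W P η j 0 0 z z + G4 W P η j 0 (a + 1) z y) := by
      refine Finset.sum_le_sum fun z _ => ?_
      rw [gB, gZ]
      exact am2 lB (lZ' z) (W.K_nonneg _ _ _)
    have h2 : ∑ z, W.K (a + 1) y z * wt W w (T - j) z ^ 2 / 2 *
        (G4 W P η j 0 0 z z + G4 W P η j 0 (a + 1) z y) =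
        1 / 2 * ∑ z, wt W w (T - j) z ^ 2 * W.K (a + 1) y z *
        (G4 W P η j 0 0 z z + G4 W P η j 0 (a + 1) z y) := by
      rw [Finset.mul_sum]
      exact Finset.sum_congr rfl fun z _ => by ring
    rw [h2] at h1
    have h3 := mul_le_mul_of_nonneg_left h1 (by positivity : (0:ℝ) ≤ 2 * κ * s2)
    refine h3.trans (le_of_eq ?_)
    ring
  have t7 : ∑ z, ∫ ω, (wt W w (T - j) z * Zr W (cfg η ω) j z) ^ 2 *
      (W.K (a + 1) y z * Zr W (cfg η ω) j z) ^ 2 ∂P =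
      ∑ z, wt W w (T - j) z ^ 2 * W.K (a + 1) y z ^ 2 * G4 W P η j 0 0 z z := by
    refine Finset.sum_congr rfl fun z _ => ?_
    rw [gZ, ← integral_const_mul]
    congr 1
    funext ω
    ring
  have t8 : ∑ z, ∑ z', ∫ ω, (wt W w (T - j) z * Zr W (cfg η ω) j z) ^ 2 *
      (W.K (a + 1) y z' * Zr W (cfg η ω) j z') ^ 2 ∂P =
      ∑ z, ∑ z', wt W w (T - j) z ^ 2 * W.K (a + 1) y z' ^ 2 * G4 W P η j 0 0 z z' := by
    refine Finset.sum_congr rfl fun z _ => Finset.sum_congr rfl fun z' _ => ?_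
    rw [gZ, ← integral_const_mul]
    congr 1
    funext ω
    ring
  have t9 : ∑ z, ∑ z', ∫ ω, wt W w (T - j) z * Zr W (cfg η ω) j z *
      (W.K (a + 1) y z * Zr W (cfg η ω) j z) * (wt W w (T - j) z' * Zr W (cfg η ω) j z' *
        (W.K (a + 1) y z' * Zr W (cfg η ω) j z')) ∂P =
      ∑ z, ∑ z', wt W w (T - j) z * W.K (a + 1) y z *
        (wt W w (T - j) z' * W.K (a + 1) y z') * G4 W P η j 0 0 z z' := by
    refine Finset.sum_congr rfl fun z _ => Finset.sum_congr rfl fun z' _ => ?_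
    rw [gZ, ← integral_const_mul]
    congr 1
    funext ω
    ring
  rw [t1, t2, t3, t7, t8, t9] at hg
  linarith

end Pool.Agent.H696.QC
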